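import Pool.Agent.T9h20.TF.Spec

/-!
# Alternations in one block
-/

set_option autoImplicit false

open MeasureTheory Set Filter Topology

namespace Pool.Agent.T9h75.TF

open Pool.Agent.T9h20.TA (mon mx)
open Pool.Agent.T9h20.TE (DD)
open Pool.Agent.T9h20.TF

/-- On the real line the two expressions agree. -/
theorem fc_ofReal {k q t : ℕ} (b d : Fin k → ℝ) (al : Fin k → Fin q → ℕ)
    (c a : Fin q → Fin t → ℝ) (y : ℝ) :
    Fc b d al c a (y : ℂ) = ((Fr b d al c a y : ℝ) : ℂ) := by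
  unfold Fc Fr mon
  push_cast
  rfl

theorem fr_cont {k q t : ℕ} (b d : Fin k → ℝ) (al : Fin k → Fin q → ℕ)
    (c a : Fin q → Fin t → ℝ) : Continuous (Fr b d al c a) := by
  unfold Fr mon
  fun_prop

theorem fc_diff {k q t : ℕ} (b d : Fin k → ℝ) (al : Fin k → Fin q → ℕ)
    (c a : Fin q → Fin t → ℝ) : Differentiable ℂ (Fc b d al c a) := by
  unfold Fc
  fun_prop

/-- `l' - l` zeros between `y l` and `y l'`. -/
theorem zeros (f : ℝ → ℝ) (y : ℕ → ℝ) (hy : StrictMono y) (N l l' : ℕ)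
    (hl' : l' ≤ N) (h : ∀ l, l < N → ∃ z ∈ Ioo (y l) (y (l + 1)), f z = 0) :
    ∃ Z : Finset ℝ, Z.card = l' - l ∧ ∀ z ∈ Z, y l ≤ z ∧ z ≤ y l' ∧ f z = 0 := by
  choose! ξ h12 h3 using h
  have h1 : ∀ i, i < N → y i < ξ i := fun i hi => (h12 i hi).1
  have h2 : ∀ i, i < N → ξ i < y (i + 1) := fun i hi => (h12 i hi).2
  refine ⟨(Finset.Ico l l').image ξ, ?_, ?_⟩
  · rw [Finset.card_image_of_injOn, Nat.card_Ico]
    have key : ∀ i j, i < j → j < N → ξ i < ξ j := fun i j hij hj =>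
      lt_of_lt_of_le (h2 i (hij.trans hj)) ((hy.monotone hij).trans (h1 j hj).le)
    intro i hi j hj hij
    have hi' := Finset.mem_Ico.1 (Finset.mem_coe.1 hi)
    have hj' := Finset.mem_Ico.1 (Finset.mem_coe.1 hj)
    rcases lt_trichotomy i j with h | h | h
    · exact absurd hij (key i j h (hj'.2.trans_le hl')).ne
    · exact h
    · exact absurd hij.symm (key j i h (hi'.2.trans_le hl')).ne
  · intro z hz
    obtain ⟨i, hi, rfl⟩ := Finset.mem_image.1 hz
    have hi' := Finset.mem_Ico.1 hi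
    have hiN : i < N := hi'.2.trans_le hl'
    exact ⟨(hy.monotone hi'.1).trans (h1 i hiN).le,
      (h2 i hiN).le.trans (hy.monotone hi'.2), h3 i hiN⟩

/-- (A) -/
theorem sAlt (hZ : SZero) (hP : SCell) (hL : SLoc) : SAlt := by
  intro k q t m _ b d al c a D Y A hD hY hA hal hd ha s0 p r hpr hp hr hc hb hDD N n y hy hyI
    halt hne hlow hn
  obtain ⟨B, hBc, hBm, hB⟩ := hL k q t m b d al c a D hD hal hd ha s0 p r hpr hc hb hDD
  have hm : (0 : ℝ) < (m + 1) * D := by positivity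
  set η : ℝ := 1 / ((m + 1) * D) with hη
  have hη0 : 0 < η := by positivity
  have hcell := hP B η Y N n y hη0 hY
    (fun x hx => abs_le.2 ⟨hp.trans (hBm x hx).1, (hBm x hx).2.trans hr⟩) hy
    (fun l hl => abs_le.2 ⟨hp.trans (hyI l hl).1, (hyI l hl).2.trans hr⟩) ?_
  · refine hcell.trans ?_
    have h1 : 2 * Y / η = 2 * Y * ((m + 1) * D) := by
      rw [hη, div_div_eq_mul_div, div_one]
    rw [h1]
    have hlog : 0 ≤ Real.log (1 + 2 * Y * ((m + 1) * D)) := by
      apply Real.log_nonneg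
      have : 0 ≤ 2 * Y * ((m + 1) * D) := by positivity
      linarith
    have hcard : (B.card : ℝ) ≤ (k : ℝ) ^ 2 + 2 := by exact_mod_cast hBc
    have hn1 : (0 : ℝ) ≤ (n : ℝ) + 1 := by positivity
    gcongr
  · intro l l' hll hl' hcond
    by_contra hcon
    push Not at hcon
    have hlt : l < l' := by omega
    have hlN : l ≤ N := hll.trans hl'
    have hdiff : 0 < y l' - y l := sub_pos.2 (hy hlt)
    obtain ⟨Z, hZc, hZm⟩ := zeros _ y hy N l l' hl' halt
    obtain ⟨i0, E, hE⟩ := hB (y l) (hyI l hlN) (4 * (y l' - y l)) (by positivity)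
      (fun x' hx' => by have := hcond x' hx'; linarith)
    have hexp : Differentiable ℂ (fun z : ℂ => Complex.exp (-((E : ℂ) * (z - (y l : ℂ))))) := by
      fun_prop
    have hmain := hZ (fun z => Fc b d al c a z * Complex.exp (-((E : ℂ) * (z - (y l : ℂ)))))
      (y l : ℂ) (4 * (y l' - y l)) (3 * (k * (t : ℝ) ^ m) * MM b d al c a i0 (y l))
      (Z.map ⟨fun x : ℝ => (x : ℂ), Complex.ofReal_injective⟩) (by positivity)
      ((fc_diff b d al c a).mul hexp) (fun z hz => hE z hz) ?_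
    · rw [Finset.card_map, hZc] at hmain
      simp only [sub_self, mul_zero, neg_zero, Complex.exp_zero, mul_one, fc_ofReal,
        Complex.norm_real, Real.norm_eq_abs] at hmain
      have habs : 0 < |Fr b d al c a (y l)| := abs_pos.2 (hne l hlN)
      have hpow : (0 : ℝ) < (1 / 3) ^ (l' - l) := by positivity
      have hkt : (0 : ℝ) ≤ 3 * (k * (t : ℝ) ^ m) := by positivity
      have hMM : 0 < MM b d al c a i0 (y l) := by
        by_contra hcon2
        push Not at hcon2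
        have : 3 * (k * (t : ℝ) ^ m) * MM b d al c a i0 (y l) * (1 / 3) ^ (l' - l) ≤ 0 :=
          mul_nonpos_of_nonpos_of_nonneg (mul_nonpos_of_nonneg_of_nonpos hkt hcon2) hpow.le
        linarith
      have hA1 : A * MM b d al c a i0 (y l) ≤
          3 * (k * (t : ℝ) ^ m) * (1 / 3) ^ (l' - l) * MM b d al c a i0 (y l) := by
        have := (hlow l hlN i0).trans hmain
        linarith
      have hA2 : A ≤ 3 * (k * (t : ℝ) ^ m) * (1 / 3) ^ (l' - l) := le_of_mul_le_mul_right hA1 hMM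
      have hA3 : (1 / 3 : ℝ) ^ (l' - l) ≤ (1 / 3) ^ (n + 1) :=
        pow_le_pow_of_le_one (by norm_num) (by norm_num) hcon
      have hA4 : A ≤ 3 * (k * (t : ℝ) ^ m) * (1 / 3) ^ (n + 1) :=
        hA2.trans (mul_le_mul_of_nonneg_left hA3 hkt)
      have hA5 : A * 3 ^ (n + 1) ≤ 3 * (k * (t : ℝ) ^ m) := by
        have h3 : (0 : ℝ) < 3 ^ (n + 1) := by positivity
        calc A * 3 ^ (n + 1) ≤ 3 * (k * (t : ℝ) ^ m) * (1 / 3) ^ (n + 1) * 3 ^ (n + 1) :=
              mul_le_mul_of_nonneg_right hA4 h3.le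
          _ = 3 * (k * (t : ℝ) ^ m) * ((1 / 3) ^ (n + 1) * 3 ^ (n + 1)) := by ring
          _ = 3 * (k * (t : ℝ) ^ m) := by
              rw [← mul_pow]
              norm_num
      linarith
    · intro z hz
      obtain ⟨x, hx, rfl⟩ := Finset.mem_map.1 hz
      obtain ⟨h1, h2, h3⟩ := hZm x hx
      refine ⟨?_, ?_⟩
      · show ‖(x : ℂ) - (y l : ℂ)‖ ≤ 4 * (y l' - y l) / 4
        rw [← Complex.ofReal_sub, Complex.norm_real, Real.norm_eq_abs, abs_of_nonneg (by linarith)]
        linarith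
      · show Fc b d al c a (x : ℂ) * Complex.exp (-((E : ℂ) * ((x : ℂ) - (y l : ℂ)))) = 0
        rw [fc_ofReal, h3]
        simp

end Pool.Agent.T9h75.TF
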